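import Pool.Agent.G02.Stmts
import Pool.Agent.Helper81_NJ.Tools

set_option autoImplicit false

/-!
# Squad G02: row LE (helper86)
-/

namespace Pool.Agent.G02.H86

open Pool.Agent.NJ.H81

theorem le : LeStmt := by
  intro a b d M e N B hQ l hl a₁ b₁ c₁ hl2 ha hb hc hna hnc
  have hlp : l.Prime := Fact.out
  have hP : Prime (l : ℤ) := prime_int hlp
  have hl0 : (l : ℤ) ≠ 0 := hP.ne_zero
  have h1 : a₁ ^ 2 - 4 * b₁ = l * c₁ := by
    have h : (l : ℤ) ^ 2 * (a₁ ^ 2 - 4 * b₁) = (l : ℤ) ^ 2 * (l * c₁) := by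
      rw [ha, hb] at hc
      linear_combination hc
    exact mul_left_cancel₀ (pow_ne_zero 2 hl0) h
  have hn2 : ¬ (l : ℤ) ∣ 2 := by
    intro h
    have h' : l ∣ 2 := by exact_mod_cast h
    exact hl2 ((Nat.prime_dvd_prime_iff_eq hlp Nat.prime_two).1 h')
  have hnb : ¬ (l : ℤ) ∣ b₁ := by
    intro h
    apply hna
    apply hP.dvd_of_dvd_pow (n := 2)
    have e1 : a₁ ^ 2 = l * c₁ + 4 * b₁ := by linear_combination h1
    rw [e1]
    exact dvd_add (dvd_mul_right _ _) (Dvd.dvd.mul_left h 4)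
  have hlb : legendreSym l b₁ = 1 := by
    apply leg_one (x := a₁) hnb hn2
    exact ⟨-c₁, by linear_combination (-1 : ℤ) * h1⟩
  have he1 : ∀ x : ℤ, (l : ℤ) ∣ d * M → (l : ℤ) ∣ e → False := by
    intro _ h2 h3
    exact hP.not_isUnit (hQ.cop.isUnit_of_dvd' h2 h3)
  refine ⟨?_, ?_⟩
  · intro hnd
    have hco : IsCoprime ((l : ℤ) ^ 2) d :=
      IsCoprime.pow_left ((Prime.coprime_iff_not_dvd hP).2 hnd)
    have hB : (l : ℤ) ^ 2 ∣ B := by
      apply hco.dvd_of_dvd_mul_left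
      rw [← hQ.hb, hb]
      exact dvd_mul_right _ _
    obtain ⟨B₁, rfl⟩ := hB
    have hb1 : b₁ = d * B₁ := by
      have h : (l : ℤ) ^ 2 * b₁ = (l : ℤ) ^ 2 * (d * B₁) := by
        rw [← hb, hQ.hb]; ring
      exact mul_left_cancel₀ (pow_ne_zero 2 hl0) h
    by_cases hM : (l : ℤ) ∣ M
    · obtain ⟨M₁, rfl⟩ := hM
      have hne : ¬ (l : ℤ) ∣ e := fun h => he1 0 (Dvd.dvd.mul_left (dvd_mul_right _ _) _) h
      have heq := hQ.eq
      have hN : (l : ℤ) ∣ N := by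
        apply hP.dvd_of_dvd_pow (n := 2)
        rw [heq]
        exact ⟨l ^ 3 * d * M₁ ^ 4 + a * l * M₁ ^ 2 * e ^ 2 + l * B₁ * e ^ 4, by ring⟩
      obtain ⟨N₁, rfl⟩ := hN
      have h2 : N₁ ^ 2 = l ^ 2 * d * M₁ ^ 4 + l * a₁ * M₁ ^ 2 * e ^ 2 + B₁ * e ^ 4 := by
        have h : (l : ℤ) ^ 2 * N₁ ^ 2 =
            (l : ℤ) ^ 2 * (l ^ 2 * d * M₁ ^ 4 + l * a₁ * M₁ ^ 2 * e ^ 2 + B₁ * e ^ 4) := by
          rw [ha] at heq
          linear_combination heq
        exact mul_left_cancel₀ (pow_ne_zero 2 hl0) h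
      have hnB : ¬ (l : ℤ) ∣ B₁ := by
        intro h
        apply hnb
        rw [hb1]
        exact Dvd.dvd.mul_left h _
      have h3 : legendreSym l B₁ = 1 := by
        apply leg_one (y := e ^ 2) (x := N₁) hnB (fun h => hne (hP.dvd_of_dvd_pow h))
        exact ⟨-(l * d * M₁ ^ 4 + a₁ * M₁ ^ 2 * e ^ 2), by linear_combination (-1 : ℤ) * h2⟩
      rw [hb1, legendreSym.mul, h3, mul_one] at hlb
      exact hlb
    · apply leg_one (y := M ^ 2) (x := N) hnd (fun h => hM (hP.dvd_of_dvd_pow h))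
      refine ⟨-(a₁ * M ^ 2 * e ^ 2 + l * B₁ * e ^ 4), ?_⟩
      have heq := hQ.eq
      rw [ha] at heq
      linear_combination (-1 : ℤ) * heq
  · intro d₁ hd
    have hnd1 : ¬ (l : ℤ) ∣ d₁ := by
      rintro ⟨k, rfl⟩
      have h := hQ.sqf l ⟨k, by rw [hd]; ring⟩
      exact hP.not_isUnit h
    have h2 : d₁ * B = l * b₁ := by
      have h : (l : ℤ) * (d₁ * B) = l * (l * b₁) := by
        have h3 := hQ.hb
        rw [hb, hd] at h3
        linear_combination (-1 : ℤ) * h3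
      exact mul_left_cancel₀ hl0 h
    have hB : (l : ℤ) ∣ B := by
      have h : (l : ℤ) ∣ d₁ * B := h2 ▸ dvd_mul_right _ _
      exact (hP.dvd_or_dvd h).resolve_left hnd1
    obtain ⟨B₁, rfl⟩ := hB
    have hb1 : b₁ = d₁ * B₁ := by
      have h : (l : ℤ) * b₁ = l * (d₁ * B₁) := by
        linear_combination (-1 : ℤ) * h2
      exact mul_left_cancel₀ hl0 h
    have hne : ¬ (l : ℤ) ∣ e := by
      intro h
      apply he1 0 _ h
      rw [hd, mul_assoc]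
      exact dvd_mul_right _ _
    have heq := hQ.eq
    have hN : (l : ℤ) ∣ N := by
      apply hP.dvd_of_dvd_pow (n := 2)
      rw [heq, ha, hd]
      exact ⟨d₁ * M ^ 4 + a₁ * M ^ 2 * e ^ 2 + B₁ * e ^ 4, by ring⟩
    obtain ⟨N₁, rfl⟩ := hN
    have h3 : l * N₁ ^ 2 = d₁ * M ^ 4 + a₁ * M ^ 2 * e ^ 2 + B₁ * e ^ 4 := by
      have h : (l : ℤ) * (l * N₁ ^ 2) = l * (d₁ * M ^ 4 + a₁ * M ^ 2 * e ^ 2 + B₁ * e ^ 4) := by
        rw [ha, hd] at heq
        linear_combination heq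
      exact mul_left_cancel₀ hl0 h
    have h4 : (2 * d₁ * M ^ 2 + a₁ * e ^ 2) ^ 2 = l * (4 * d₁ * N₁ ^ 2 + c₁ * e ^ 4) := by
      rw [hb1] at h1
      linear_combination (-4 * d₁ : ℤ) * h3 + e ^ 4 * h1
    have h5 : (l : ℤ) ∣ 2 * d₁ * M ^ 2 + a₁ * e ^ 2 := by
      apply hP.dvd_of_dvd_pow (n := 2)
      rw [h4]
      exact dvd_mul_right _ _
    obtain ⟨T, hT⟩ := h5
    have h6 : 4 * d₁ * N₁ ^ 2 = l * T ^ 2 - c₁ * e ^ 4 := by
      have h : (l : ℤ) * (4 * d₁ * N₁ ^ 2) = l * (l * T ^ 2 - c₁ * e ^ 4) := by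
        rw [hT] at h4
        linear_combination (-1 : ℤ) * h4
      exact mul_left_cancel₀ hl0 h
    refine ⟨?_, ?_⟩
    · apply leg_one (y := e ^ 2) (x := 2 * d₁ * N₁) _ (fun h => hne (hP.dvd_of_dvd_pow h))
      · exact ⟨-(d₁ * T ^ 2), by linear_combination (-d₁ : ℤ) * h6⟩
      · rw [dvd_neg]
        intro h
        rcases hP.dvd_or_dvd h with h | h
        · exact hnc h
        · exact hnd1 h
    · apply leg_one (y := e) (x := 2 * d₁ * M) _ hne
      · exact ⟨-(2 * d₁ * T), by linear_combination (-2 * d₁ : ℤ) * hT⟩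
      · rw [dvd_neg]
        intro h
        rcases hP.dvd_or_dvd h with h | h
        · rcases hP.dvd_or_dvd h with h | h
          · exact hn2 h
          · exact hna h
        · exact hnd1 h

end Pool.Agent.G02.H86
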