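import Pool.Agent.G02.Stmts
import Pool.Agent.Helper81_NJ.Tools

set_option autoImplicit false

/-!
# Squad G02: row RLC (helper86)
-/

namespace Pool.Agent.G02.H86

open Pool.Agent.NJ.H81

theorem rlc : RlcStmt := by
  intro p q r hp hq hr h
  have mp := h.mp
  have mq := h.mq
  have hr' := h.hr
  have hr5 : r % 8 = 5 := by omega
  have p2 : p ≠ 2 := by rintro rfl; omega
  have q2 : q ≠ 2 := by rintro rfl; omega
  have r2 : r ≠ 2 := by rintro rfl; omega
  have npq : p ≠ q := by rintro rfl; omega
  have npr : p ≠ r := by rintro rfl; omega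
  have nqr : q ≠ r := by rintro rfl; omega
  refine ⟨hr5, legendreSym p q, ?_⟩
  have hpq0 : ((q : ℤ) : ZMod p) ≠ 0 := by
    apply zne
    intro hd
    have hd' : p ∣ q := by exact_mod_cast hd
    exact npq ((Nat.prime_dvd_prime_iff_eq h.pp h.pq).1 hd')
  have h2p : legendreSym p 2 = -1 := by
    rw [legendreSym.at_two p2, ZMod.χ₈_nat_eq_if_mod_eight]
    have : p % 2 ≠ 0 := by omega
    simp [this, mp]
  have hm1q : legendreSym q (-1) = -1 := by
    rw [legendreSym.at_neg_one q2, ZMod.χ₄_nat_three_mod_four (by omega)]
  have hpR : legendreSym p r = -legendreSym p q := by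
    have e1 : legendreSym p r = legendreSym p (2 * 2 * 2 * q) := by
      apply leg_congr
      exact ⟨-1, by rw [hr']; ring⟩
    rw [e1, legendreSym.mul, legendreSym.mul, legendreSym.mul, h2p]
    ring
  have hqP : legendreSym q p = -legendreSym p q :=
    legendreSym.quadratic_reciprocity_three_mod_four (by omega) (by omega)
  have hqR : legendreSym q r = legendreSym p q := by
    have e1 : legendreSym q r = legendreSym q (-1 * p) := by
      apply leg_congr
      exact ⟨8, by rw [hr']; ring⟩
    rw [e1, legendreSym.mul, hm1q, hqP]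
    ring
  have hrP : legendreSym r p = -legendreSym p q := by
    rw [← hpR]
    exact (legendreSym.quadratic_reciprocity_one_mod_four (by omega) p2).symm
  have hrQ : legendreSym r q = legendreSym p q := by
    rw [← hqR]
    exact (legendreSym.quadratic_reciprocity_one_mod_four (by omega) q2).symm
  have n1 : ∀ l : ℕ, l.Prime → ¬ (l : ℤ) ∣ 1 := by
    intro l hl h1
    have h1' : l ∣ 1 := by exact_mod_cast h1
    exact hl.one_lt.ne' (Nat.dvd_one.1 h1')
  exact
    { p2 := p2
      q2 := q2
      r2 := r2
      npq := npq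
      npr := npr
      nqr := nqr
      kp := n1 p h.pp
      kq := n1 q h.pq
      kr := n1 r h.pr
      hpQ := rfl
      hpR := hpR
      hqP := hqP
      hqR := hqR
      hrP := hrP
      hrQ := hrQ
      one := legendreSym.eq_one_or_neg_one p hpq0 }

end Pool.Agent.G02.H86
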